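import Pool.Agent.Helper6_AEN.MON
import Pool.Agent.Helper62_AEN.TWO
import Pool.Agent.Helper77_AEN.MEA
import Pool.Agent.Helper80_AEN.TRA
import Pool.Agent.Helper52_AEN.ASL
import Pool.Agent.Helper72_AEN.Conn
import Pool.Agent.Helper44_AEN.DET
import Pool.Agent.Helper31_AEN.ZON
import Pool.Agent.Helper40_AEN.SPA
import Pool.Agent.Helper92_AEN.RAT
import Pool.Agent.Helper20_AEN.DCY
import Pool.Agent.Helper41_AEN.EIG
import Pool.Agent.Helper32_AEN.FTU
import Pool.Agent.Helper20_AEN.END
import Pool.Agent.Helper81_AEN.POS
import Pool.Agent.Helper16_AEN.EN2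
import Pool.Agent.Helper77_LCH.ERG

/-!
# The cheap end: all rows together

If for almost every energy of an interval the Green vectors are unbounded with positive probability,
there is almost surely no eigenvalue in the interval.
-/

namespace Pool.Agent.AEN.H76

theorem aslT : AslStmt := H52.asl (H62.two H6.mon) H77.mea H80.tra

theorem detT : DetStmt := H44.det H72.con

theorem zonT : ZonStmt := H31.zon aslT detT H77.mea H80.tra Pool.Agent.LE.CH.H77.erg

theorem dcyT : DcyStmt := H20.dcy H40.spa (H92.rat H6.mon)

theorem ftuT : FtuStmt := H32.ftu dcyT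

theorem endT : EndStmt := H20.end_ zonT ftuT H41.eig

theorem posT : PosStmt := H81.pos H6.mon

/-- the form which is used: `im G_00 (E + i η) ≥ A η` for some `η`, with probability at least `p` -/
theorem en2T : En2Stmt := H16.en2 endT posT

end Pool.Agent.AEN.H76
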